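import Pool.Agent.Helper70.MM.Goals

/-!
# The support of a rotation invariant maximising measure of a ball contains the boundary
-/

open MeasureTheory Set Metric
open scoped ENNReal RealInnerProductSpace Topology
open Pool.Agent.Results.MP_91ee6f_gt Pool.Agent.Helper70.MM

namespace Pool.Agent.Helper22.MM

lemma mem_support_map {n : ℕ} {w : Measure (En n)} {g : En n ≃ₗᵢ[ℝ] En n} (hg : w.map g = w)
    {p : En n} (hp : p ∈ w.support) : g p ∈ w.support := by
  rw [Measure.mem_support_iff_forall] at hp ⊢
  intro U hU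
  have h1 : w U = w (g ⁻¹' U) := by
    conv_lhs => rw [← hg]
    exact g.toHomeomorph.measurableEmbedding.map_apply w U
  rw [h1]
  exact hp _ (g.continuous.continuousAt.preimage_mem_nhds hU)

lemma exists_unit {n : ℕ} (hn : 1 ≤ n) (p : En n) : ∃ e : En n, ‖e‖ = 1 ∧ p = ‖p‖ • e := by
  by_cases hp : p = 0
  · refine ⟨EuclideanSpace.single ⟨0, hn⟩ 1, by simp, by simp [hp]⟩
  · have h : ‖p‖ ≠ 0 := norm_ne_zero_iff.2 hp
    refine ⟨‖p‖⁻¹ • p, ?_, ?_⟩
    · rw [norm_smul, norm_inv, norm_norm, inv_mul_cancel₀ h]
    · rw [smul_smul, mul_inv_cancel₀ h, one_smul]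

lemma dist_gap {n : ℕ} {e y : En n} (he : ‖e‖ = 1) {r R : ℝ} (hr : 0 ≤ r) (hrR : r < R)
    (hy : ‖y‖ ≤ r) : dist (r • e) y + (R - r) ^ 2 / (4 * R) ≤ dist (R • e) y := by
  have hR : 0 < R := lt_of_le_of_lt hr hrR
  have key : ∀ t : ℝ, dist (t • e) y ^ 2 = t ^ 2 - 2 * t * inner ℝ e y + ‖y‖ ^ 2 := by
    intro t
    rw [dist_eq_norm, norm_sub_sq_real, norm_smul, he, inner_smul_left]
    simp
    ring
  have hin : inner ℝ e y ≤ r := by
    calc inner ℝ e y ≤ ‖e‖ * ‖y‖ := real_inner_le_norm e y
      _ ≤ r := by rw [he, one_mul]; exact hy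
  have h1 := key r
  have h2 := key R
  have h3 : dist (r • e) y ≤ 2 * r := by
    rw [dist_eq_norm]
    calc ‖r • e - y‖ ≤ ‖r • e‖ + ‖y‖ := norm_sub_le _ _
      _ ≤ 2 * r := by rw [norm_smul, he, Real.norm_eq_abs, abs_of_nonneg hr]; linarith
  have h4 : dist (R • e) y ≤ R + r := by
    rw [dist_eq_norm]
    calc ‖R • e - y‖ ≤ ‖R • e‖ + ‖y‖ := norm_sub_le _ _
      _ ≤ R + r := by rw [norm_smul, he, Real.norm_eq_abs, abs_of_pos hR]; linarith
  have h5 : (R - r) ^ 2 ≤ dist (R • e) y ^ 2 - dist (r • e) y ^ 2 := by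
    rw [h1, h2]
    nlinarith [mul_nonneg (sub_nonneg.2 hin) (sub_nonneg.2 hrR.le)]
  have d1 : 0 ≤ dist (r • e) y := dist_nonneg
  have d2 : 0 ≤ dist (R • e) y := dist_nonneg
  have h6 : dist (r • e) y ≤ dist (R • e) y := by
    have : dist (r • e) y ^ 2 ≤ dist (R • e) y ^ 2 := by nlinarith [sq_nonneg (R - r)]
    exact (pow_le_pow_iff_left₀ d1 d2 (by norm_num)).1 this
  have h7 : (R - r) ^ 2 ≤ (dist (R • e) y - dist (r • e) y) * (4 * R) := by
    calc (R - r) ^ 2 ≤ (dist (R • e) y - dist (r • e) y) *
          (dist (R • e) y + dist (r • e) y) := by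
            have h9 : (dist (R • e) y - dist (r • e) y) * (dist (R • e) y + dist (r • e) y)
                = dist (R • e) y ^ 2 - dist (r • e) y ^ 2 := by ring
            rw [h9]
            exact h5
      _ ≤ _ := by
        apply mul_le_mul_of_nonneg_left _ (sub_nonneg.2 h6)
        linarith
  have h8 : (R - r) ^ 2 / (4 * R) ≤ dist (R • e) y - dist (r • e) y := by
    rw [div_le_iff₀ (by positivity)]
    exact h7
  linarith

theorem bdry : BDRY := by
  intro n hn R hR w hw hball hrot c hc hsupp
  have hS : w.support ⊆ closedBall 0 R := by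
    apply Measure.support_subset_of_isClosed isClosed_closedBall
    rw [mem_ae_iff]
    exact hball
  have hcomp : IsCompact w.support :=
    (isCompact_closedBall (0 : En n) R).of_isClosed_subset Measure.isClosed_support hS
  have hne : w.support.Nonempty := Measure.nonempty_support (IsProbabilityMeasure.ne_zero w)
  obtain ⟨p, hp, hmax⟩ := hcomp.exists_isMaxOn hne continuous_norm.continuousOn
  have hmax' : ∀ y ∈ w.support, ‖y‖ ≤ ‖p‖ := fun y hy => hmax hy
  have hpR : ‖p‖ ≤ R := by
    have := hS hp
    rwa [mem_closedBall_zero_iff] at this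
  have hpeq : ‖p‖ = R := by
    by_contra hcon
    have hlt : ‖p‖ < R := lt_of_le_of_ne hpR hcon
    obtain ⟨e, he, hpe⟩ := exists_unit hn p
    set η : ℝ := (R - ‖p‖) ^ 2 / (4 * R) with hη
    have hηpos : 0 < η := by
      have : 0 < R - ‖p‖ := sub_pos.2 hlt
      positivity
    have hgap : ∀ y ∈ w.support, dist p y + η ≤ dist (R • e) y := by
      intro y hy
      have := dist_gap he (norm_nonneg p) hlt (hmax' y hy)
      rwa [← hpe] at this
    have hcont : Continuous fun y : En n => Real.exp (-dist p y) := by fun_prop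
    have hint : Integrable (fun y : En n => Real.exp (-dist p y)) w := by
      refine (integrable_const (1 : ℝ)).mono' hcont.aestronglyMeasurable ?_
      refine Filter.Eventually.of_forall fun y => ?_
      rw [Real.norm_eq_abs, abs_of_pos (Real.exp_pos _), Real.exp_le_one_iff]
      have := dist_nonneg (x := p) (y := y)
      linarith
    have hle : potential w (R • e) ≤ Real.exp (-η) * potential w p := by
      unfold potential
      rw [← integral_const_mul]
      apply integral_mono_of_nonneg
      · exact Filter.Eventually.of_forall fun y => (Real.exp_pos _).le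
      · exact hint.const_mul _
      · filter_upwards [Measure.support_mem_ae (μ := w)] with y hy
        rw [← Real.exp_add]
        apply Real.exp_le_exp.2
        have := hgap y hy
        linarith
    have hpos : 0 < potential w p := by
      unfold potential
      rw [integral_pos_iff_support_of_nonneg (fun y => (Real.exp_pos _).le) hint]
      have : Function.support (fun y : En n => Real.exp (-dist p y)) = univ := by
        ext y
        simp [(Real.exp_pos _).ne']
      rw [this]
      simp
    have h1 : c ≤ potential w (R • e) := by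
      apply hc
      rw [mem_closedBall_zero_iff, norm_smul, he, Real.norm_eq_abs, abs_of_pos hR, mul_one]
    have h2 : potential w p = c := hsupp p hp
    have h3 : Real.exp (-η) < 1 := by
      rw [Real.exp_lt_one_iff]
      linarith
    nlinarith
  intro x hx
  rw [mem_sphere_zero_iff_norm] at hx
  have h1 := mem_support_map (hrot (Submodule.reflection (ℝ ∙ (p - x))ᗮ)) hp
  rwa [Submodule.reflection_sub (by rw [hpeq, hx])] at h1

end Pool.Agent.Helper22.MM
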